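import Mathlib

/-!
# MP_c5ead3_nt : least deficient multiplier

The set of values `a(n)`, `n ≥ 2`, is exactly `{3}` together with the almost perfect numbers
(`σ(k) = 2k - 1`).  So the assertion of Q1 (`a(n)` is `1`, `3` or a power of `2` for every `n ≥ 2`)
is equivalent to the statement that every almost perfect number is a power of `2`.
-/

namespace Pool.Agent.Results.MP_c5ead3_nt.ValueSet

open Finset

/-- Sum of the positive divisors. -/
def sig (n : ℕ) : ℕ := ∑ d ∈ n.divisors, d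

/-- The least deficient `k ≥ 1` such that `k * n` is non-deficient. -/
noncomputable def a (n : ℕ) : ℕ :=
  sInf {k : ℕ | 1 ≤ k ∧ sig k < 2 * k ∧ 2 * (k * n) ≤ sig (k * n)}

theorem sig_eq (n : ℕ) : sig n = ArithmeticFunction.sigma 1 n := by
  rw [sig, ArithmeticFunction.sigma_one_apply]

theorem sig_coprime {m n : ℕ} (h : m.Coprime n) : sig (m * n) = sig m * sig n := by
  simp only [sig_eq]
  exact ArithmeticFunction.isMultiplicative_sigma.map_mul_of_coprime h

theorem sig_two_pow (j : ℕ) : sig (2 ^ j) = 2 ^ (j + 1) - 1 := by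
  rw [sig, Nat.sum_divisors_prime_pow Nat.prime_two, Nat.geomSum_eq (le_refl 2)]
  simp

theorem sig_pos {n : ℕ} (hn : 1 ≤ n) : 1 ≤ sig n := by
  have : 1 ∈ n.divisors := Nat.one_mem_divisors.2 (by omega)
  exact Finset.single_le_sum (f := fun d => d) (fun _ _ => Nat.zero_le _) this

theorem sig_ge {n : ℕ} (hn : 2 ≤ n) : n + 1 ≤ sig n := by
  have h1 : ({1, n} : Finset ℕ) ⊆ n.divisors := by
    intro x hx
    simp only [mem_insert, mem_singleton] at hx
    rcases hx with rfl | rfl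
    · exact Nat.one_mem_divisors.2 (by omega)
    · exact Nat.mem_divisors_self _ (by omega)
  calc n + 1 = ∑ d ∈ ({1, n} : Finset ℕ), d := by
        rw [sum_pair (by omega)]; ring
    _ ≤ sig n := sum_le_sum_of_subset h1

theorem sig_mul_le (m n : ℕ) (hm : 1 ≤ m) (hn : 1 ≤ n) : sig (m * n) ≤ sig m * sig n := by
  have h1 : (m * n).divisors ⊆ (m.divisors ×ˢ n.divisors).image (fun x => x.1 * x.2) := by
    intro d hd
    obtain ⟨x, y, hx, hy, rfl⟩ := (Nat.dvd_mul).1 (Nat.dvd_of_mem_divisors hd)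
    rw [mem_image]
    exact ⟨(x, y), mem_product.2 ⟨Nat.mem_divisors.2 ⟨hx, by omega⟩,
      Nat.mem_divisors.2 ⟨hy, by omega⟩⟩, rfl⟩
  calc sig (m * n) ≤ ∑ d ∈ (m.divisors ×ˢ n.divisors).image (fun x => x.1 * x.2), d :=
        sum_le_sum_of_subset h1
    _ ≤ ∑ x ∈ m.divisors ×ˢ n.divisors, x.1 * x.2 := by
        rw [← Finset.sum_fiberwise_of_maps_to
          (g := fun x : ℕ × ℕ => x.1 * x.2) (f := fun x : ℕ × ℕ => x.1 * x.2)
          (t := (m.divisors ×ˢ n.divisors).image (fun x => x.1 * x.2))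
          (fun x hx => mem_image_of_mem _ hx)]
        apply sum_le_sum
        intro d hd
        obtain ⟨x, hx, rfl⟩ := mem_image.1 hd
        exact Finset.single_le_sum (f := fun x : ℕ × ℕ => x.1 * x.2)
          (fun _ _ => Nat.zero_le _) (mem_filter.2 ⟨hx, rfl⟩)
    _ = sig m * sig n := by
        rw [sig, sig, sum_mul_sum, sum_product]

/-- The key step: if `k` has deficiency at least `2`, the largest power of `2` up to `k` is at
least as good as `k`. -/
theorem key {n k b : ℕ} (hk : 1 ≤ k) (hn : 1 ≤ n) (hdef : sig k + 2 ≤ 2 * k)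
    (hk2 : k ≤ 2 ^ (b + 1)) (h : 2 * (k * n) ≤ sig (k * n)) :
    2 ^ (b + 1) * n ≤ (2 ^ (b + 1) - 1) * sig n := by
  have h1 : 2 * (k * n) ≤ sig k * sig n := h.trans (sig_mul_le k n hk hn)
  have h2 : sig k ≤ 2 * (k - 1) := by omega
  have h3 : 2 * (k * n) ≤ 2 * (k - 1) * sig n := h1.trans (Nat.mul_le_mul_right _ h2)
  have h4 : k * n ≤ (k - 1) * sig n := by
    have : 2 * (k * n) ≤ 2 * ((k - 1) * sig n) := by rw [← mul_assoc 2 (k - 1)]; exact h3
    omega
  set P := 2 ^ (b + 1) with hP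
  have hP1 : 1 ≤ P := Nat.one_le_two_pow
  obtain ⟨k', rfl⟩ : ∃ k', k = k' + 1 := ⟨k - 1, by omega⟩
  obtain ⟨P', hP'⟩ : ∃ P', P = P' + 1 := ⟨P - 1, by omega⟩
  rw [hP'] at hk2 ⊢
  simp only [Nat.add_sub_cancel] at h4 ⊢
  have h5 : (k' + 1) * ((P' + 1) * n) ≤ (k' + 1) * (P' * sig n) := by
    calc (k' + 1) * ((P' + 1) * n) = (P' + 1) * ((k' + 1) * n) := by ring
      _ ≤ (P' + 1) * (k' * sig n) := Nat.mul_le_mul_left _ h4
      _ = (P' * k' + k') * sig n := by ring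
      _ ≤ (P' * k' + P') * sig n := Nat.mul_le_mul_right _ (by omega)
      _ = (k' + 1) * (P' * sig n) := by ring
  exact Nat.le_of_mul_le_mul_left h5 (by omega)

theorem sig_two_pow_mul {n : ℕ} (hn : Odd n) (j : ℕ) :
    sig (2 ^ j * n) = (2 ^ (j + 1) - 1) * sig n := by
  rw [sig_coprime, sig_two_pow]
  exact Nat.Coprime.pow_left _ (Nat.coprime_two_left.2 hn)

/-- `2 ^ j` is a deficient multiplier making the odd number `n` non-deficient iff ... -/
theorem mem_iff {n : ℕ} (hn : Odd n) (j : ℕ) :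
    (1 ≤ 2 ^ j ∧ sig (2 ^ j) < 2 * 2 ^ j ∧ 2 * (2 ^ j * n) ≤ sig (2 ^ j * n)) ↔
      2 ^ (j + 1) * n ≤ (2 ^ (j + 1) - 1) * sig n := by
  rw [sig_two_pow_mul hn, sig_two_pow]
  have h1 : 1 ≤ 2 ^ j := Nat.one_le_two_pow
  have h2 : 2 ^ (j + 1) = 2 * 2 ^ j := by rw [pow_succ]; ring
  have h3 : 2 * (2 ^ j * n) = 2 ^ (j + 1) * n := by rw [h2]; ring
  rw [h3]
  constructor
  · exact fun h => h.2.2
  · exact fun h => ⟨h1, by omega, h⟩

/-! ### From almost perfect numbers to the values of `a` -/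

theorem forward (n : ℕ) (hn : 2 ≤ n) :
    a n = 3 ∨ (1 ≤ a n ∧ sig (a n) = 2 * a n - 1) := by
  rcases Nat.even_or_odd n with he | ho
  · -- even case
    by_cases hd : 2 * n ≤ sig n
    · right
      have hmem : (1 : ℕ) ∈ {k : ℕ | 1 ≤ k ∧ sig k < 2 * k ∧ 2 * (k * n) ≤ sig (k * n)} := by
        refine ⟨le_refl 1, ?_, by simpa using hd⟩
        simp [sig]
      have h1 : a n ≤ 1 := Nat.sInf_le hmem
      have h2 := Nat.sInf_mem ⟨1, hmem⟩
      have h3 : 1 ≤ a n := h2.1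
      have h4 : a n = 1 := by omega
      rw [h4]
      exact ⟨le_rfl, by decide⟩
    · push Not at hd
      have h3 : ¬ 3 ∣ n := by
        intro h3
        obtain ⟨m, rfl⟩ : 6 ∣ n := by
          have := (Nat.Coprime.mul_dvd_of_dvd_of_dvd (by norm_num : Nat.Coprime 2 3)
            he.two_dvd h3)
          simpa using this
        have hm : 1 ≤ m := by omega
        have h4 : ({m, 2 * m, 3 * m, 6 * m} : Finset ℕ) ⊆ (6 * m).divisors := by
          intro x hx
          simp only [mem_insert, mem_singleton] at hx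
          rw [Nat.mem_divisors]
          refine ⟨?_, by omega⟩
          rcases hx with rfl | rfl | rfl | rfl
          · exact ⟨6, by ring⟩
          · exact ⟨3, by ring⟩
          · exact ⟨2, by ring⟩
          · exact dvd_rfl
        have h5 : ∑ d ∈ ({m, 2 * m, 3 * m, 6 * m} : Finset ℕ), d = 12 * m := by
          rw [sum_insert, sum_insert, sum_insert, sum_singleton]
          · ring
          · simp; omega
          · simp only [mem_insert, mem_singleton]; omega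
          · simp only [mem_insert, mem_singleton]; omega
        have h6 : 12 * m ≤ sig (6 * m) := by
          rw [← h5]; exact sum_le_sum_of_subset h4
        omega
      have hmem : (3 : ℕ) ∈ {k : ℕ | 1 ≤ k ∧ sig k < 2 * k ∧ 2 * (k * n) ≤ sig (k * n)} := by
        have hs3 : sig 3 = 4 := by decide
        refine ⟨by norm_num, by rw [hs3]; norm_num, ?_⟩
        rw [sig_coprime ((Nat.Prime.coprime_iff_not_dvd Nat.prime_three).2 h3), hs3]
        obtain ⟨m, rfl⟩ := he.two_dvd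
        have hm : 1 ≤ m := by omega
        have h4 : ({m, 2 * m} : Finset ℕ) ⊆ (2 * m).divisors := by
          intro x hx
          simp only [mem_insert, mem_singleton] at hx
          rw [Nat.mem_divisors]
          refine ⟨?_, by omega⟩
          rcases hx with rfl | rfl
          · exact ⟨2, by ring⟩
          · exact dvd_rfl
        have h5 : ∑ d ∈ ({m, 2 * m} : Finset ℕ), d = 3 * m := by
          rw [sum_pair (by omega)]; ring
        have h6 : 3 * m ≤ sig (2 * m) := by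
          rw [← h5]; exact sum_le_sum_of_subset h4
        omega
      have h1 : a n ≤ 3 := Nat.sInf_le hmem
      have h2 := Nat.sInf_mem ⟨3, hmem⟩
      have h4 : 1 ≤ a n := h2.1
      have h5 : a n = 1 ∨ a n = 2 ∨ a n = 3 := by omega
      rcases h5 with h | h | h
      · exact Or.inr (by rw [h]; exact ⟨le_rfl, by decide⟩)
      · exact Or.inr (by rw [h]; exact ⟨by norm_num, by decide⟩)
      · exact Or.inl h
  · -- odd case
    right
    have hne : {k : ℕ | 1 ≤ k ∧ sig k < 2 * k ∧ 2 * (k * n) ≤ sig (k * n)}.Nonempty := by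
      refine ⟨2 ^ n, (mem_iff ho n).2 ?_⟩
      have h1 : n + 1 ≤ sig n := sig_ge hn
      have h2 : n + 1 ≤ 2 ^ (n + 1) := (Nat.lt_two_pow_self (n := n + 1)).le
      calc 2 ^ (n + 1) * n ≤ (2 ^ (n + 1) - 1) * (n + 1) := by
            obtain ⟨P, hP⟩ : ∃ P, 2 ^ (n + 1) = P + 1 := ⟨2 ^ (n + 1) - 1, by omega⟩
            rw [hP] at h2 ⊢
            simp only [Nat.add_sub_cancel]
            nlinarith
        _ ≤ (2 ^ (n + 1) - 1) * sig n := Nat.mul_le_mul_left _ h1
    have hmem := Nat.sInf_mem hne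
    change a n ∈ {k : ℕ | 1 ≤ k ∧ sig k < 2 * k ∧ 2 * (k * n) ≤ sig (k * n)} at hmem
    obtain ⟨h1, h2, h3⟩ := hmem
    by_cases hap : sig (a n) = 2 * a n - 1
    · exact ⟨h1, hap⟩
    · have hdef : sig (a n) + 2 ≤ 2 * a n := by omega
      set b := Nat.log 2 (a n) with hb
      have hb1 : 2 ^ b ≤ a n := Nat.pow_log_le_self 2 (by omega)
      have hb2 : a n < 2 ^ (b + 1) := Nat.lt_pow_succ_log_self (by norm_num) _
      have h4 := key h1 (by omega : 1 ≤ n) hdef hb2.le h3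
      have h5 : a n ≤ 2 ^ b := Nat.sInf_le ((mem_iff ho b).2 h4)
      have h6 : a n = 2 ^ b := le_antisymm h5 hb1
      refine ⟨h1, ?_⟩
      rw [h6, sig_two_pow, pow_succ, mul_comm]

/-! ### Products of consecutive large primes -/

/-- The primes in `[M, N)`. -/
def pr (M N : ℕ) : Finset ℕ := (Finset.Ico M N).filter Nat.Prime

theorem pr_succ {M N : ℕ} (h : M ≤ N) :
    pr M (N + 1) = if N.Prime then insert N (pr M N) else pr M N := by
  unfold pr
  rw [Nat.Ico_succ_right_eq_insert_Ico h, filter_insert]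

theorem one_add_sum_le (S : Finset ℕ) (f : ℕ → ℝ) (hf : ∀ i, 0 ≤ f i) :
    1 + ∑ i ∈ S, f i ≤ ∏ i ∈ S, (1 + f i) := by
  induction S using Finset.induction_on with
  | empty => simp
  | insert i S hi ih =>
    rw [sum_insert hi, prod_insert hi]
    have h1 : (1 : ℝ) ≤ ∏ i ∈ S, (1 + f i) := by
      have : 0 ≤ ∑ i ∈ S, f i := sum_nonneg (fun i _ => hf i)
      linarith
    nlinarith [hf i]

theorem exists_large (M : ℕ) (C : ℝ) : ∃ N, M ≤ N ∧ C ≤ ∏ p ∈ pr M N, (1 + 1 / (p : ℝ)) := by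
  have h1 := Nat.Primes.not_summable_one_div
  have h2 := not_summable_one_div_on_primes
  rw [not_summable_iff_tendsto_nat_atTop_of_nonneg
    (fun n => Set.indicator_nonneg (fun p _ => by positivity) _)] at h2
  set g : ℕ → ℝ := Set.indicator {p | Nat.Prime p} (fun n : ℕ => (1 : ℝ) / n) with hg
  obtain ⟨N, hN⟩ := ((Filter.tendsto_atTop.1 h2 (C + ∑ i ∈ range M, g i)).and
    (Filter.eventually_ge_atTop M)).exists
  refine ⟨N, hN.2, ?_⟩
  have h3 : ∑ i ∈ pr M N, (1 : ℝ) / i = ∑ i ∈ Ico M N, g i := by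
    unfold pr
    rw [sum_filter]
    apply sum_congr rfl
    intro i _
    simp only [hg, Set.indicator_apply]
    rfl
  have h4 : ∑ i ∈ Ico M N, g i = ∑ i ∈ range N, g i - ∑ i ∈ range M, g i :=
    sum_Ico_eq_sub _ hN.2
  have h5 := one_add_sum_le (pr M N) (fun p => 1 / (p : ℝ)) (fun p => by positivity)
  have h6 := hN.1
  linarith

theorem exists_window (M : ℕ) (hM : 1 ≤ M) (α β : ℝ) (hα : 1 < α)
    (hαβ : α * (1 + 1 / (M : ℝ)) ≤ β) :
    ∃ N, α ≤ ∏ p ∈ pr M N, (1 + 1 / (p : ℝ)) ∧ ∏ p ∈ pr M N, (1 + 1 / (p : ℝ)) < β := by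
  classical
  have hex : ∃ N, M ≤ N ∧ α ≤ ∏ p ∈ pr M N, (1 + 1 / (p : ℝ)) := exists_large M α
  set N := Nat.find hex with hN
  obtain ⟨h1, h2⟩ := Nat.find_spec hex
  rw [← hN] at h1 h2
  refine ⟨N, h2, ?_⟩
  have hMN : M < N := by
    rcases h1.lt_or_eq with h | h
    · exact h
    · exfalso
      rw [← h] at h2
      simp [pr] at h2
      linarith
  obtain ⟨K, hK⟩ : ∃ K, N = K + 1 := ⟨N - 1, by omega⟩
  have h3 : ¬ (M ≤ K ∧ α ≤ ∏ p ∈ pr M K, (1 + 1 / (p : ℝ))) :=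
    Nat.find_min hex (by omega)
  have h4 : ∏ p ∈ pr M K, (1 + 1 / (p : ℝ)) < α := by
    by_contra h
    push Not at h
    exact h3 ⟨by omega, h⟩
  rw [hK, pr_succ (by omega : M ≤ K)]
  have hMpos : (0 : ℝ) < M := by exact_mod_cast hM
  have h0 : (0 : ℝ) < ∏ p ∈ pr M K, (1 + 1 / (p : ℝ)) := prod_pos (fun p _ => by positivity)
  split_ifs with hp
  · have hnot : K ∉ pr M K := by simp [pr]
    rw [prod_insert hnot]
    have h5 : (1 : ℝ) / K ≤ 1 / M := by
      apply one_div_le_one_div_of_le hMpos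
      exact_mod_cast (by omega : M ≤ K)
    have h6 : (0 : ℝ) ≤ 1 / M := by positivity
    calc (1 + 1 / (K : ℝ)) * ∏ p ∈ pr M K, (1 + 1 / (p : ℝ))
        ≤ (1 + 1 / (M : ℝ)) * ∏ p ∈ pr M K, (1 + 1 / (p : ℝ)) :=
          mul_le_mul_of_nonneg_right (by linarith) h0.le
      _ < (1 + 1 / (M : ℝ)) * α := mul_lt_mul_of_pos_left h4 (by linarith)
      _ ≤ β := by rw [mul_comm]; exact hαβ
  · have h6 : (0 : ℝ) ≤ 1 / M := by positivity
    nlinarith

theorem sig_prod (M N : ℕ) :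
    (sig (∏ p ∈ pr M N, p) : ℝ) = (∏ p ∈ pr M N, (1 + 1 / (p : ℝ))) * (∏ p ∈ pr M N, p : ℕ) := by
  have hprime : ∀ p ∈ pr M N, p.Prime := fun p hp => (mem_filter.1 hp).2
  rw [sig_eq, ArithmeticFunction.isMultiplicative_sigma.map_prod_of_prime _ hprime]
  push_cast
  rw [← prod_mul_distrib]
  apply prod_congr rfl
  intro p hp
  have h1 := hprime p hp
  rw [← sig_eq, sig, Nat.Prime.sum_divisors h1]
  have : (p : ℝ) ≠ 0 := by exact_mod_cast h1.ne_zero
  push_cast
  field_simp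

/-! ### The converse -/

theorem converse (k : ℕ) (hk1 : 2 ≤ k) (hk2 : sig k = 2 * k - 1) : ∃ n, 2 ≤ n ∧ a n = k := by
  -- the window
  obtain ⟨A, hA⟩ : ∃ A, A = 2 * k - 1 := ⟨_, rfl⟩
  obtain ⟨B, hB⟩ : ∃ B, B = 2 * k - 3 := ⟨_, rfl⟩
  have hBpos : 1 ≤ B := by omega
  have hAB : B + 2 ≤ A := by omega
  obtain ⟨M, hM⟩ : ∃ M, M = (A + 1) * B + k + 3 := ⟨_, rfl⟩
  have hMpos : 1 ≤ M := by omega
  have hAR : (0 : ℝ) < A := by exact_mod_cast (by omega : 0 < A)
  have hBR : (0 : ℝ) < B := by exact_mod_cast (by omega : 0 < B)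
  have hMR : (0 : ℝ) < M := by exact_mod_cast (by omega : 0 < M)
  have hwin : (1 + 1 / (A : ℝ)) * (1 + 1 / (M : ℝ)) ≤ 1 + 1 / (B : ℝ) := by
    have h1 : ((A : ℝ) + 1) * B ≤ M := by
      rw [hM]; push_cast
      have : (0 : ℝ) ≤ k := Nat.cast_nonneg _
      linarith
    have h2 : (B : ℝ) + 2 ≤ A := by exact_mod_cast hAB
    have h3 : ((A : ℝ) + 1) * (M + 1) * B ≤ (B + 1) * A * M := by nlinarith
    rw [show (1 + 1 / (A : ℝ)) * (1 + 1 / (M : ℝ)) = ((A + 1) * (M + 1)) / (A * M) by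
      field_simp, show 1 + 1 / (B : ℝ) = (B + 1) / B by field_simp,
      div_le_div_iff₀ (by positivity) hBR]
    nlinarith
  obtain ⟨N, hN1, hN2⟩ := exists_window M hMpos (1 + 1 / (A : ℝ)) (1 + 1 / (B : ℝ))
    (by have : 0 < 1 / (A : ℝ) := by positivity
        linarith) hwin
  obtain ⟨n, hn⟩ : ∃ n, n = ∏ p ∈ pr M N, p := ⟨_, rfl⟩
  have hprime : ∀ p ∈ pr M N, p.Prime := fun p hp => (mem_filter.1 hp).2
  have hge : ∀ p ∈ pr M N, M ≤ p := fun p hp => (mem_Ico.1 (mem_filter.1 hp).1).1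
  have hsig : (sig n : ℝ) = (∏ p ∈ pr M N, (1 + 1 / (p : ℝ))) * n := by
    rw [hn]; exact sig_prod M N
  have hn0 : 1 ≤ n := by
    rw [hn]
    exact Nat.one_le_iff_ne_zero.2 (prod_ne_zero_iff.2 (fun p hp => (hprime p hp).ne_zero))
  have hnR : (0 : ℝ) < n := by exact_mod_cast hn0
  have hn2 : 2 ≤ n := by
    by_contra h
    have h1 : n = 1 := by omega
    rw [h1] at hsig
    have h2 : sig 1 = 1 := by decide
    rw [h2] at hsig
    have : 0 < 1 / (A : ℝ) := by positivity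
    norm_num at hsig
    have h3 : (1 : ℝ) < ∏ p ∈ pr M N, (1 + 1 / (p : ℝ)) := by linarith
    simp only [one_div] at h3
    linarith
  have hcop : ∀ m, 1 ≤ m → m < M → m.Coprime n := by
    intro m hm1 hm2
    rw [hn]
    apply Nat.Coprime.prod_right
    intro p hp
    refine Nat.Coprime.symm (((hprime p hp).coprime_iff_not_dvd).2 ?_)
    intro hd
    have := Nat.le_of_dvd (by omega) hd
    have := hge p hp
    omega
  have hlow : 2 * k * n ≤ (2 * k - 1) * sig n := by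
    rw [← hA]
    have h1 : ((A : ℝ) + 1) * n ≤ A * sig n := by
      rw [hsig]
      have h2 : (1 + 1 / (A : ℝ)) * n ≤ (∏ p ∈ pr M N, (1 + 1 / (p : ℝ))) * n :=
        mul_le_mul_of_nonneg_right hN1 hnR.le
      calc ((A : ℝ) + 1) * n = A * ((1 + 1 / (A : ℝ)) * n) := by field_simp
        _ ≤ _ := mul_le_mul_of_nonneg_left h2 hAR.le
    have h3 : (A + 1) * n ≤ A * sig n := by exact_mod_cast h1
    have h4 : 2 * k = A + 1 := by omega
    rw [h4]; exact h3
  have hhigh : ∀ m, 1 ≤ m → m < k → (2 * m - 1) * sig n < 2 * m * n := by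
    intro m hm hmk
    obtain ⟨D, hD⟩ : ∃ D, D = 2 * m - 1 := ⟨_, rfl⟩
    have hD1 : 2 * m = D + 1 := by omega
    have hDpos : 1 ≤ D := by omega
    have hDB : D ≤ B := by omega
    rw [← hD, hD1]
    have hDR : (0 : ℝ) < D := by exact_mod_cast hDpos
    have h2 : (∏ p ∈ pr M N, (1 + 1 / (p : ℝ))) * n < (1 + 1 / (B : ℝ)) * n :=
      mul_lt_mul_of_pos_right hN2 hnR
    have h3 : 1 / (B : ℝ) ≤ 1 / D := one_div_le_one_div_of_le hDR (by exact_mod_cast hDB)
    have h4 : (1 + 1 / (B : ℝ)) * n ≤ (1 + 1 / (D : ℝ)) * n :=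
      mul_le_mul_of_nonneg_right (by linarith) hnR.le
    have h5 : (D : ℝ) * ((∏ p ∈ pr M N, (1 + 1 / (p : ℝ))) * n) < D * ((1 + 1 / (D : ℝ)) * n) :=
      mul_lt_mul_of_pos_left (lt_of_lt_of_le h2 h4) hDR
    have h6 : (D : ℝ) * ((1 + 1 / (D : ℝ)) * n) = (D + 1) * n := by field_simp
    rw [← hsig, h6] at h5
    exact_mod_cast h5
  refine ⟨n, hn2, ?_⟩
  have hmemk : k ∈ {k : ℕ | 1 ≤ k ∧ sig k < 2 * k ∧ 2 * (k * n) ≤ sig (k * n)} := by
    refine ⟨by omega, by omega, ?_⟩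
    rw [sig_coprime (hcop k (by omega) (by omega)), hk2]
    calc 2 * (k * n) = 2 * k * n := by ring
      _ ≤ _ := hlow
  have hle : a n ≤ k := Nat.sInf_le hmemk
  obtain ⟨g1, g2, g3⟩ := Nat.sInf_mem ⟨k, hmemk⟩
  change 1 ≤ a n at g1
  change sig (a n) < 2 * a n at g2
  change 2 * (a n * n) ≤ sig (a n * n) at g3
  by_contra hne
  have hlt : a n < k := lt_of_le_of_ne hle hne
  rw [sig_coprime (hcop _ g1 (by omega))] at g3
  have h1 := hhigh _ g1 hlt
  have h2 : sig (a n) * sig n ≤ (2 * a n - 1) * sig n := Nat.mul_le_mul_right _ (by omega)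
  have h3 : 2 * (a n * n) = 2 * a n * n := by ring
  omega

theorem a_two : a 2 = 3 := by
  have hs4 : sig (2 * 2) = 7 := by decide
  have hs2 : sig (1 * 2) = 3 := by decide
  have hmem : (3 : ℕ) ∈ {k : ℕ | 1 ≤ k ∧ sig k < 2 * k ∧ 2 * (k * 2) ≤ sig (k * 2)} := by
    have hs3 : sig 3 = 4 := by decide
    have hs6 : sig (3 * 2) = 12 := by decide
    refine ⟨by norm_num, by rw [hs3]; norm_num, by rw [hs6]⟩
  have h1 : a 2 ≤ 3 := Nat.sInf_le hmem
  obtain ⟨g1, g2, g3⟩ := Nat.sInf_mem ⟨3, hmem⟩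
  change 1 ≤ a 2 at g1
  change 2 * (a 2 * 2) ≤ sig (a 2 * 2) at g3
  have h2 : a 2 = 1 ∨ a 2 = 2 ∨ a 2 = 3 := by omega
  rcases h2 with h | h | h
  · rw [h, hs2] at g3; omega
  · rw [h, hs4] at g3; omega
  · exact h

theorem a_six : a 6 = 1 := by
  have hmem : (1 : ℕ) ∈ {k : ℕ | 1 ≤ k ∧ sig k < 2 * k ∧ 2 * (k * 6) ≤ sig (k * 6)} := by
    have hs1 : sig 1 = 1 := by decide
    have hs6 : sig (1 * 6) = 12 := by decide
    refine ⟨by norm_num, by rw [hs1]; norm_num, by rw [hs6]⟩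
  have h1 : a 6 ≤ 1 := Nat.sInf_le hmem
  obtain ⟨g1, _, _⟩ := Nat.sInf_mem ⟨1, hmem⟩
  change 1 ≤ a 6 at g1
  omega

/-- **Main theorem.** The values `a(n)`, `n ≥ 2`, are exactly `3` and the almost perfect
numbers. -/
theorem result : a '' {n : ℕ | 2 ≤ n} = {3} ∪ {k : ℕ | 1 ≤ k ∧ sig k = 2 * k - 1} := by
  ext k
  constructor
  · rintro ⟨n, hn, rfl⟩
    rcases forward n hn with h | h
    · exact Or.inl h
    · exact Or.inr h
  · rintro (h | ⟨h1, h2⟩)
    · rw [Set.mem_singleton_iff] at h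
      subst h
      exact ⟨2, le_refl 2, a_two⟩
    · rcases h1.eq_or_lt with h | h
      · subst h
        exact ⟨6, by norm_num, a_six⟩
      · obtain ⟨n, hn, hna⟩ := converse k h h2
        exact ⟨n, hn, hna⟩

end Pool.Agent.Results.MP_c5ead3_nt.ValueSet
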